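import Pool.Agent.W458.MF.NStm

set_option autoImplicit false

/-! # The characteristic polynomial determines the polynomial `h` modulo `l` -/

open Polynomial

namespace Pool.Agent.W366.MF

open Pool.Agent.W521.Frob

theorem coeffs_zero {R : Type*} [CommRing R] [Nontrivial R] (q : R) (g : ℕ) (d : ℕ → R) (n : ℕ)
    (hn : n ≤ g + 1)
    (h : ∑ j ∈ Finset.range n, C (d j) * ((X ^ 2 + C q) ^ j * X ^ (g - j)) = 0) :
    ∀ j < n, d j = 0 := by
  induction n with
  | zero => intro j hj; omega
  | succ n ih =>
    rw [Finset.sum_range_succ] at h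
    have hmon : (X ^ 2 + C q : R[X]).Monic := monic_X_pow_add_C q two_ne_zero
    have hdeg : (X ^ 2 + C q : R[X]).natDegree = 2 := natDegree_X_pow_add_C
    have hm2 : ∀ j : ℕ, ((X ^ 2 + C q : R[X]) ^ j * X ^ (g - j)).Monic := fun j =>
      (hmon.pow j).mul (monic_X_pow _)
    have hd2 : ∀ j : ℕ, j ≤ g → ((X ^ 2 + C q : R[X]) ^ j * X ^ (g - j)).natDegree = g + j := by
      intro j hj
      rw [(hmon.pow j).natDegree_mul (monic_X_pow _), hmon.natDegree_pow, hdeg, natDegree_X_pow]
      omega
    have h1 := congrArg (fun p => coeff p (g + n)) h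
    simp only [coeff_add, finsetSum_coeff, coeff_C_mul, coeff_zero] at h1
    rw [Finset.sum_eq_zero, zero_add] at h1
    · have h2 : ((X ^ 2 + C q : R[X]) ^ n * X ^ (g - n)).coeff (g + n) = 1 := by
        have := (hm2 n).coeff_natDegree
        rwa [hd2 n (by omega)] at this
      rw [h2, mul_one] at h1
      rw [h1, C_0, zero_mul, add_zero] at h
      intro j hj
      rcases Nat.lt_succ_iff_lt_or_eq.1 hj with hj | hj
      · exact ih (by omega) h j hj
      · rw [hj]; exact h1
    · intro j hj
      have hj' := Finset.mem_range.1 hj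
      rw [coeff_eq_zero_of_natDegree_lt, mul_zero]
      rw [hd2 j (by omega)]
      omega

theorem winj : Pool.Agent.W458.MF.St_WINJ := by
  intro l q h h' _ _ hdeg heq
  cases subsingleton_or_nontrivial (ZMod l) with
  | inl hs => exact Subsingleton.elim _ _
  | inr hn =>
    set φ := Int.castRingHom (ZMod l) with hφ
    have key := coeffs_zero (φ (q : ℤ)) h.natDegree (fun j => φ (h.coeff j) - φ (h'.coeff j))
      (h.natDegree + 1) le_rfl (by
        unfold weil at heq
        rw [← hdeg] at heq
        simp only [Polynomial.map_sum, Polynomial.map_mul, Polynomial.map_pow, Polynomial.map_add,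
          Polynomial.map_X, Polynomial.map_C] at heq
        simp only [C_sub, sub_mul]
        rw [Finset.sum_sub_distrib, heq, sub_self])
    ext j
    rw [coeff_map, coeff_map]
    by_cases hj : j < h.natDegree + 1
    · exact sub_eq_zero.1 (key j hj)
    · rw [coeff_eq_zero_of_natDegree_lt (by omega), coeff_eq_zero_of_natDegree_lt (by omega)]

end Pool.Agent.W366.MF
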